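import Mathlib

/-! Helper file for MP_e9bccb_gt: closing-off lemma, Frechet-Urysohn property and the
monolithicity lemma for compact spaces that split over Corson compacta. -/

open Cardinal Set Filter Topology

namespace Pool.Agent.Work.MP_e9bccb_gt

universe u

/-- closing-off lemma below an uncountable regular cardinal -/
theorem exists_closed {α : Type u} {κ : Cardinal.{u}} (hreg : κ.IsRegular) (hunc : ℵ₀ < κ)
    (Φ : Finset α → Set α) (hΦ : ∀ F, #(Φ F) < κ) (H₀ : Set α) (h₀ : #H₀ < κ) :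
    ∃ H : Set α, H₀ ⊆ H ∧ #H < κ ∧ ∀ F : Finset α, ↑F ⊆ H → Φ F ⊆ H := by
  classical
  -- one step
  let step : Set α → Set α := fun H => H ∪ ⋃ F : Finset H, Φ (F.map (Function.Embedding.subtype _))
  have hstep_sub : ∀ H, H ⊆ step H := fun H => subset_union_left
  have hstep_card : ∀ H : Set α, #H < κ → #(step H) < κ := by
    intro H hH
    have h1 : #(⋃ F : Finset H, Φ (F.map (Function.Embedding.subtype _)) : Set α) < κ := by
      refine (card_iUnion_lt_iff_forall_of_isRegular hreg ?_).2 (fun F => hΦ _)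
      rcases finite_or_infinite H with hf | hi
      · exact lt_of_lt_of_le (Cardinal.lt_aleph0_of_finite _) hreg.aleph0_le
      · rw [mk_finset_of_infinite]; exact hH
    exact lt_of_le_of_lt (mk_union_le _ _) (add_lt_of_lt hreg.aleph0_le hH h1)
  have hstep_cl : ∀ H : Set α, ∀ F : Finset α, ↑F ⊆ H → Φ F ⊆ step H := by
    intro H F hF
    refine subset_union_of_subset_right ?_ _
    have : F = (F.subtype (· ∈ H)).map (Function.Embedding.subtype _) := by
      ext x
      simp only [Finset.mem_map, Finset.mem_subtype, Function.Embedding.coe_subtype,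
        Subtype.exists, exists_and_left, exists_prop, exists_eq_right_right]
      constructor
      · intro hx; exact ⟨hx, hF hx⟩
      · intro hx; exact hx.1
    rw [this]
    exact subset_iUnion (fun F : Finset H => Φ (F.map (Function.Embedding.subtype _)))
      (F.subtype (· ∈ H))
  let S : ℕ → Set α := fun n => step^[n] H₀
  have hS_succ : ∀ n, S (n+1) = step (S n) := fun n => Function.iterate_succ_apply' step n H₀
  have hS_mono : Monotone S := monotone_nat_of_le_succ (fun n => by rw [hS_succ]; exact hstep_sub _)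
  have hS_card : ∀ n, #(S n) < κ := by
    intro n
    induction n with
    | zero => exact h₀
    | succ n ih => rw [hS_succ]; exact hstep_card _ ih
  refine ⟨⋃ n, S n, subset_iUnion S 0, ?_, ?_⟩
  · have : (⋃ n, S n) = ⋃ n : ULift.{u} ℕ, S n.down := by
      ext x; simp
    rw [this]
    refine (card_iUnion_lt_iff_forall_of_isRegular hreg ?_).2 (fun F => hS_card _)
    simpa using hunc
  · intro F hF
    obtain ⟨n, hn⟩ : ∃ n, (F : Set α) ⊆ S n :=
      (hS_mono.directed_le).exists_mem_subset_of_finset_subset_biUnion hF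
    exact (hstep_cl _ _ hn).trans ((hS_succ n) ▸ subset_iUnion S (n+1))

variable {X : Type u} [TopologicalSpace X]

/-- a family of continuous real functions which is point-countable -/
structure PC (𝒢 : Set (X → ℝ)) : Prop where
  cont : ∀ g ∈ 𝒢, Continuous g
  ctbl : ∀ x, {g ∈ 𝒢 | g x ≠ 0}.Countable

/-- every subset is split by a point-countable family of continuous functions -/
def SplitAll (X : Type u) [TopologicalSpace X] : Prop :=
  ∀ A : Set X, ∃ 𝒢 : Set (X → ℝ), PC 𝒢 ∧ ∀ x ∈ A, ∀ y ∉ A, ∃ g ∈ 𝒢, g x ≠ g y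

/-- points in the closure are limits of sequences -/
theorem exists_seq [CompactSpace X] [T2Space X] (hX : SplitAll X) {C : Set X} {p : X}
    (hp : p ∈ closure C) : ∃ u : ℕ → X, (∀ n, u n ∈ C) ∧ Tendsto u atTop (𝓝 p) := by
  classical
  obtain ⟨𝒢, hPC, hsep⟩ := hX {p}
  have hsep' : ∀ y, y ≠ p → ∃ g ∈ 𝒢, g p ≠ g y := fun y hy => hsep p rfl y hy
  -- picking points of C close to p
  have hpick : ∀ (F : Finset (X → ℝ)) (n : ℕ), ∃ c ∈ C, ∀ g ∈ F, g ∈ 𝒢 →
      |g c - g p| < 1 / ((n : ℝ) + 1) := by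
    intro F n
    have hopen : ∀ᶠ c in 𝓝 p, ∀ g ∈ F, g ∈ 𝒢 → |g c - g p| < 1 / ((n : ℝ) + 1) := by
      rw [Filter.eventually_all_finset]
      intro g _
      by_cases hg : g ∈ 𝒢
      · have h1 : Tendsto (fun c => |g c - g p|) (𝓝 p) (𝓝 0) := by
          have : Tendsto (fun c => |g c - g p|) (𝓝 p) (𝓝 |g p - g p|) :=
            (((hPC.cont g hg).tendsto p).sub_const (g p)).abs
          simpa using this
        have h2 : (0 : ℝ) < 1 / ((n : ℝ) + 1) := by positivity
        filter_upwards [h1.eventually (gt_mem_nhds h2)] with c hc _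
        exact hc
      · exact Filter.Eventually.of_forall (fun c h => absurd h hg)
    obtain ⟨c, hc1, hc2⟩ := (mem_closure_iff_frequently.1 hp).and_eventually hopen |>.exists
    exact ⟨c, hc1, hc2⟩
  choose pick hpickC hpick using hpick
  let supp : X → Set (X → ℝ) := fun x => {g ∈ 𝒢 | g x ≠ 0}
  let Φ : Finset (X → ℝ) → Set (X → ℝ) := fun F => ⋃ n, supp (pick F n)
  have hΦ : ∀ F, #(Φ F) < ℵ_ 1 := by
    intro F
    rw [lt_aleph_one_iff, le_aleph0_iff_set_countable]
    exact countable_iUnion (fun n => hPC.ctbl _)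
  obtain ⟨𝒟, h𝒟₀, h𝒟c, h𝒟cl⟩ := exists_closed isRegular_aleph_one
    aleph0_lt_aleph_one Φ hΦ (insert 0 (supp p)) (by
      rw [lt_aleph_one_iff, le_aleph0_iff_set_countable]
      exact (hPC.ctbl p).insert _)
  rw [lt_aleph_one_iff, le_aleph0_iff_set_countable] at h𝒟c
  obtain ⟨e, he⟩ := h𝒟c.exists_eq_range ⟨0, h𝒟₀ (mem_insert _ _)⟩
  let F : ℕ → Finset (X → ℝ) := fun n => (Finset.range (n+1)).image e
  let u : ℕ → X := fun n => pick (F n) n
  refine ⟨u, fun n => hpickC _ _, ?_⟩
  -- every g in the family converges along u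
  have hconv : ∀ g ∈ 𝒢, Tendsto (fun n => g (u n)) atTop (𝓝 (g p)) := by
    intro g hg
    by_cases hgD : g ∈ 𝒟
    · rw [he] at hgD
      obtain ⟨k, rfl⟩ := hgD
      have hlim : Tendsto (fun n : ℕ => 1 / ((n : ℝ) + 1)) atTop (𝓝 0) :=
        tendsto_one_div_add_atTop_nhds_zero_nat
      rw [tendsto_iff_dist_tendsto_zero]
      refine squeeze_zero' (Eventually.of_forall fun n => dist_nonneg) ?_ hlim
      filter_upwards [eventually_ge_atTop k] with n hn
      have := hpick (F n) n (e k) (Finset.mem_image_of_mem _ (Finset.mem_range.2 (by omega))) hg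
      rw [Real.dist_eq]
      exact this.le
    · have h0 : ∀ n, g (u n) = 0 := by
        intro n
        by_contra hne
        apply hgD
        have hFn : (↑(F n) : Set (X → ℝ)) ⊆ 𝒟 := by
          intro f hf
          simp only [F, Finset.coe_image] at hf
          obtain ⟨k, _, rfl⟩ := hf
          rw [he]; exact mem_range_self k
        exact h𝒟cl _ hFn (mem_iUnion.2 ⟨n, hg, hne⟩)
      have hp0 : g p = 0 := by
        by_contra hne
        exact hgD (h𝒟₀ (mem_insert_of_mem _ ⟨hg, hne⟩))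
      simp only [h0, hp0]
      exact tendsto_const_nhds
  refine le_nhds_of_unique_clusterPt (fun y hy => ?_)
  by_contra hne
  obtain ⟨g, hg, hgy⟩ := hsep' y hne
  have h1 : MapClusterPt (g y) atTop (g ∘ u) :=
    MapClusterPt.continuousAt_comp (hPC.cont g hg).continuousAt hy
  have h2 : ClusterPt (g y) (𝓝 (g p)) := ClusterPt.mono h1 (hconv g hg)
  exact hgy (eq_of_nhds_neBot h2).symm

/-- cardinality of closures -/
theorem mk_closure_le [CompactSpace X] [T2Space X] (hX : SplitAll X) {C : Set X} {l : Cardinal.{u}}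
    (hl : ℵ₀ ≤ l) (hC : #C ≤ l) : #(closure C) ≤ 2 ^ l := by
  have hseq : ∀ p : closure C, ∃ u : ℕ → C, Tendsto (fun n => (u n : X)) atTop (𝓝 (p : X)) := by
    rintro ⟨p, hp⟩
    obtain ⟨u, hu, hlim⟩ := exists_seq hX hp
    exact ⟨fun n => ⟨u n, hu n⟩, hlim⟩
  choose f hf using hseq
  have hinj : Function.Injective f := by
    intro p q hpq
    have h1 := hf p
    rw [hpq] at h1
    exact Subtype.ext (tendsto_nhds_unique h1 (hf q))
  have h1 : #(closure C) ≤ #(ℕ → C) := mk_le_of_injective hinj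
  have h2 : #(ℕ → C) ≤ 2 ^ l := by
    rw [mk_arrow]
    simp only [mk_eq_aleph0, lift_aleph0, lift_id']
    calc #C ^ ℵ₀ ≤ (2 ^ l) ^ ℵ₀ :=
          power_le_power_right (hC.trans (cantor l).le)
      _ = 2 ^ (l * ℵ₀) := by rw [← power_mul]
      _ = 2 ^ l := by rw [mul_eq_left hl hl aleph0_ne_zero]
  exact h1.trans h2

/-- monolithicity: a set of size at most `l` has a closure whose points are separated by at most
`l` many continuous functions -/
theorem exists_sep [CompactSpace X] [T2Space X] (hX : SplitAll X) {C : Set X} {l : Cardinal.{u}}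
    (hl : ℵ₀ ≤ l) (hC : #C ≤ l) : ∃ 𝒰 : Set (X → ℝ), #𝒰 ≤ l ∧ (∀ u ∈ 𝒰, Continuous u) ∧
      ∀ x ∈ closure C, ∀ y ∈ closure C, (∀ u ∈ 𝒰, u x = u y) → x = y := by
  classical
  have hcard := mk_closure_le hX hl hC
  have hcard' : #(closure C) ≤ #(Set l.out) := by rw [mk_set, mk_out]; exact hcard
  obtain ⟨φ⟩ := hcard'
  let A : l.out → Set X := fun i => {x | ∃ hx : x ∈ closure C, i ∈ φ ⟨x, hx⟩}
  choose 𝒢 hPC hsep using fun i => hX (A i)
  let 𝒰 : Set (X → ℝ) := ⋃ i : l.out, ⋃ c : C, {g ∈ 𝒢 i | g c ≠ 0}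
  refine ⟨𝒰, ?_, ?_, ?_⟩
  · have h1 : ∀ i : l.out, #(⋃ c : C, {g ∈ 𝒢 i | g c ≠ 0} : Set (X → ℝ)) ≤ l := by
      intro i
      refine (mk_iUnion_le_sum_mk).trans ?_
      refine (sum_le_mk_mul_iSup _).trans ?_
      refine (mul_le_mul' hC (ciSup_le' (fun c => ?_) : _ ≤ ℵ₀)).trans ?_
      · exact le_aleph0_iff_set_countable.2 ((hPC i).ctbl c)
      · exact (mul_eq_left hl hl aleph0_ne_zero).le
    refine (mk_iUnion_le_sum_mk).trans ?_
    refine (sum_le_mk_mul_iSup _).trans ?_
    rw [mk_out]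
    exact (mul_le_mul' le_rfl (ciSup_le' h1)).trans (mul_eq_self hl).le
  · intro u hu
    simp only [𝒰, mem_iUnion] at hu
    obtain ⟨i, c, hu, _⟩ := hu
    exact (hPC i).cont u hu
  · intro x hx y hy hxy
    by_contra hne
    have key : ∀ i, ∀ g ∈ 𝒢 i, g x = g y := by
      intro i g hg
      by_cases hgU : g ∈ 𝒰
      · exact hxy g hgU
      · have h0 : ∀ c ∈ C, g c = 0 := by
          intro c hc
          by_contra h
          exact hgU (mem_iUnion.2 ⟨i, mem_iUnion.2 ⟨⟨c, hc⟩, hg, h⟩⟩)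
        have h1 : closure C ⊆ {z | g z = 0} :=
          closure_minimal h0 (isClosed_eq ((hPC i).cont g hg) continuous_const)
        have e1 : g x = 0 := h1 hx
        have e2 : g y = 0 := h1 hy
        rw [e1, e2]
    have hφ : φ ⟨x, hx⟩ ≠ φ ⟨y, hy⟩ := by
      intro h
      have := φ.injective h
      exact hne (congrArg Subtype.val this)
    apply hφ
    ext i
    constructor
    · intro hi
      by_contra hi'
      obtain ⟨g, hg, hgne⟩ := hsep i x ⟨hx, hi⟩ y (by rintro ⟨_, h⟩; exact hi' h)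
      exact hgne (key i g hg)
    · intro hi
      by_contra hi'
      obtain ⟨g, hg, hgne⟩ := hsep i y ⟨hy, hi⟩ x (by rintro ⟨_, h⟩; exact hi' h)
      exact hgne (key i g hg).symm

end Pool.Agent.Work.MP_e9bccb_gt
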