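import Pool.Agent.Work.MP_e9bccb_gt.Glue

/-! Helper file for MP_e9bccb_gt: closing-off functions. -/

open Cardinal Set Filter Topology

namespace Pool.Agent.Work.MP_e9bccb_gt

universe u

variable {X : Type u} [TopologicalSpace X]
variable {I : Type u} {d : I → X} {h : I → X → ℝ} {x₀ : X} {K : Set X}

/-- a continuous function depends on countably many of the `h ξ` -/
theorem Data.exists_dep [CompactSpace X] (D : Data I d h x₀ K) {g : X → ℝ} (hg : Continuous g) :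
    ∃ s : Set I, s.Countable ∧ ∀ x ∈ K, ∀ y ∈ K, (∀ ξ ∈ s, h ξ x = h ξ y) → g x = g y := by
  classical
  have hKc : IsClosed K := by rw [D.K_eq]; exact isClosed_closure
  have hn : ∀ n : ℕ, ∃ t : Finset I, ∀ x ∈ K, ∀ y ∈ K, 1 / ((n : ℝ) + 1) ≤ |g x - g y| →
      ∃ ξ ∈ t, h ξ x ≠ h ξ y := by
    intro n
    let S : Set (X × X) := {q | q.1 ∈ K ∧ q.2 ∈ K ∧ 1 / ((n : ℝ) + 1) ≤ |g q.1 - g q.2|}
    have hS : IsClosed S := by
      refine IsClosed.and (hKc.preimage continuous_fst) (IsClosed.and (hKc.preimage continuous_snd) ?_)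
      exact isClosed_le continuous_const
        ((hg.comp continuous_fst).sub (hg.comp continuous_snd)).abs
    have hcov : S ⊆ ⋃ ξ : I, {q : X × X | h ξ q.1 ≠ h ξ q.2} := by
      rintro ⟨x, y⟩ ⟨hx, hy, hxy⟩
      by_contra hcon
      simp only [mem_iUnion, mem_ofPred_eq, not_exists, not_not] at hcon
      have : x = y := D.sep x hx y hy hcon
      subst this
      simp only [sub_self, abs_zero] at hxy
      have h2 : (0 : ℝ) < 1 / ((n : ℝ) + 1) := by positivity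
      linarith
    obtain ⟨t, ht⟩ := hS.isCompact.elim_finite_subcover _
      (fun ξ => isOpen_ne_fun ((D.cont ξ).comp continuous_fst) ((D.cont ξ).comp continuous_snd)) hcov
    refine ⟨t, fun x hx y hy hxy => ?_⟩
    have : (x, y) ∈ ⋃ ξ ∈ t, {q : X × X | h ξ q.1 ≠ h ξ q.2} := ht ⟨hx, hy, hxy⟩
    simpa using this
  choose t ht using hn
  refine ⟨⋃ n, (t n : Set I), countable_iUnion (fun n => (t n).countable_toSet), ?_⟩
  intro x hx y hy hxy
  by_contra hne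
  have hpos : 0 < |g x - g y| := abs_pos.2 (sub_ne_zero.2 hne)
  obtain ⟨n, hn⟩ := exists_nat_one_div_lt hpos
  obtain ⟨ξ, hξ, hne'⟩ := ht n x hx y hy hn.le
  exact hne' (hxy ξ (mem_iUnion.2 ⟨n, hξ⟩))

/-- few of the `h ξ` separate the points of `XH H` -/
theorem Data.exists_V [CompactSpace X] [T2Space X] (hX : SplitAll X) (D : Data I d h x₀ K)
    {H : Set I} {l : Cardinal.{u}} (hl : ℵ₀ ≤ l) (hH : #H ≤ l) :
    ∃ V : Set I, #V ≤ l ∧
      ∀ x ∈ XH d x₀ H, ∀ y ∈ XH d x₀ H, (∀ ξ ∈ V, h ξ x = h ξ y) → x = y := by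
  classical
  have hcard : #(insert x₀ (d '' H) : Set X) ≤ l := by
    refine mk_insert_le.trans ?_
    refine (add_le_add (mk_image_le.trans hH) (one_le_aleph0.trans hl)).trans ?_
    exact (add_eq_self hl).le
  obtain ⟨𝒰, h1, h2, h3⟩ := exists_sep hX hl hcard
  have : ∀ u : 𝒰, ∃ s : Set I, s.Countable ∧
      ∀ x ∈ K, ∀ y ∈ K, (∀ ξ ∈ s, h ξ x = h ξ y) → (u : X → ℝ) x = (u : X → ℝ) y :=
    fun u => D.exists_dep (h2 u u.2)
  choose s hs1 hs2 using this
  refine ⟨⋃ u : 𝒰, s u, ?_, ?_⟩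
  · refine (mk_iUnion_le_sum_mk).trans ?_
    refine (sum_le_mk_mul_iSup _).trans ?_
    refine (mul_le_mul' h1 (ciSup_le' (fun c => ?_) : _ ≤ ℵ₀)).trans ?_
    · exact le_aleph0_iff_set_countable.2 (hs1 c)
    · exact (mul_eq_left hl hl aleph0_ne_zero).le
  · intro x hx y hy hxy
    refine h3 x hx y hy (fun u hu => ?_)
    exact hs2 ⟨u, hu⟩ x (D.XH_subset _ hx) y (D.XH_subset _ hy)
      (fun ξ hξ => hxy ξ (mem_iUnion.2 ⟨⟨u, hu⟩, hξ⟩))

/-- countably many `d η` are dense as seen by finitely many `h ξ` -/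
theorem Data.exists_dense (D : Data I d h x₀ K) (F : Finset I) :
    ∃ c : Set I, c.Countable ∧ ∀ x ∈ K, ∀ ε > 0, ∃ η ∈ c, ∀ ξ ∈ F, |h ξ (d η) - h ξ x| < ε := by
  classical
  let f : I → (F → ℝ) := fun η ξ => h ξ (d η)
  let t : TopologicalSpace I := TopologicalSpace.induced f inferInstance
  have : SecondCountableTopology I := TopologicalSpace.secondCountableTopology_induced I (F → ℝ) f
  obtain ⟨c, hc, hdense⟩ := TopologicalSpace.exists_countable_dense I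
  refine ⟨c, hc, fun x hx ε hε => ?_⟩
  have hf : Continuous f := continuous_induced_dom
  have hev : ∀ᶠ y in 𝓝 x, ∀ ξ ∈ F, |h ξ y - h ξ x| < ε / 2 := by
    rw [Filter.eventually_all_finset]
    intro ξ _
    have h1 : Tendsto (fun y => |h ξ y - h ξ x|) (𝓝 x) (𝓝 |h ξ x - h ξ x|) :=
      (((D.cont ξ).tendsto x).sub_const (h ξ x)).abs
    rw [sub_self, abs_zero] at h1
    exact h1.eventually (gt_mem_nhds (half_pos hε))
  rw [D.K_eq] at hx
  obtain ⟨_, ⟨η₀, rfl⟩, hη₀⟩ := ((mem_closure_iff_frequently.1 hx).and_eventually hev).exists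
  let U : Set I := {η | ∀ ξ : F, |f η ξ - f η₀ ξ| < ε / 2}
  have hU : IsOpen U := by
    have : U = ⋂ ξ : F, {η | |f η ξ - f η₀ ξ| < ε / 2} := by ext; simp [U]
    rw [this]
    exact isOpen_iInter_of_finite (fun ξ =>
      isOpen_lt (((continuous_apply ξ).comp hf).sub continuous_const).abs continuous_const)
  obtain ⟨η, hηU, hηc⟩ := hdense.inter_open_nonempty U hU ⟨η₀, fun ξ => by simp [half_pos hε]⟩
  refine ⟨η, hηc, fun ξ hξ => ?_⟩
  have h1 : |h ξ (d η) - h ξ (d η₀)| < ε / 2 := hηU ⟨ξ, hξ⟩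
  have h2 := hη₀ ξ hξ
  calc |h ξ (d η) - h ξ x| = |(h ξ (d η) - h ξ (d η₀)) + (h ξ (d η₀) - h ξ x)| := by ring_nf
    _ ≤ |h ξ (d η) - h ξ (d η₀)| + |h ξ (d η₀) - h ξ x| := abs_add_le _ _
    _ < ε := by linarith

/-- the lifting property follows from closure under dense sets -/
theorem Data.lift_of_dense [CompactSpace X] (D : Data I d h x₀ K) {H : Set I}
    (hH : ∀ F : Finset I, ↑F ⊆ H → ∀ x ∈ K, ∀ ε > 0, ∃ η ∈ H, ∀ ξ ∈ F, |h ξ (d η) - h ξ x| < ε) :
    ∀ x ∈ K, ∃ y ∈ XH d x₀ H, ∀ ξ ∈ H, h ξ y = h ξ x := by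
  classical
  intro x hx
  let Z : Finset H × ℕ → Set X := fun q =>
    {y | y ∈ XH d x₀ H ∧ ∀ ξ ∈ q.1, |h ξ y - h ξ x| ≤ 1 / ((q.2 : ℝ) + 1)}
  have hZc : ∀ q, IsClosed (Z q) := by
    intro q
    refine IsClosed.and isClosed_XH ?_
    have : {y : X | ∀ ξ ∈ q.1, |h ξ y - h ξ x| ≤ 1 / ((q.2 : ℝ) + 1)} =
        ⋂ ξ ∈ q.1, {y : X | |h ξ y - h ξ x| ≤ 1 / ((q.2 : ℝ) + 1)} := by
      ext y; simp
    rw [this]
    exact isClosed_biInter (fun ξ _ =>
      isClosed_le ((D.cont ξ).sub continuous_const).abs continuous_const)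
  have hne : (⋂ q, Z q).Nonempty := by
    refine IsCompact.nonempty_iInter_of_directed_nonempty_isCompact_isClosed Z ?_ ?_
      (fun q => (hZc q).isCompact) hZc
    · rintro ⟨F, m⟩ ⟨F', m'⟩
      refine ⟨(F ∪ F', max m m'), ?_, ?_⟩
      · rintro y ⟨hy1, hy2⟩
        refine ⟨hy1, fun ξ hξ => (hy2 ξ (Finset.mem_union_left _ hξ)).trans ?_⟩
        apply one_div_le_one_div_of_le (by positivity)
        simp
      · rintro y ⟨hy1, hy2⟩
        refine ⟨hy1, fun ξ hξ => (hy2 ξ (Finset.mem_union_right _ hξ)).trans ?_⟩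
        apply one_div_le_one_div_of_le (by positivity)
        simp
    · rintro ⟨F, m⟩
      obtain ⟨η, hη, hη2⟩ := hH (F.map (Function.Embedding.subtype _)) (by
        intro ξ hξ
        simp only [Finset.coe_map, Function.Embedding.coe_subtype, mem_image, Finset.mem_coe] at hξ
        obtain ⟨a, _, rfl⟩ := hξ
        exact a.2) x hx (1 / ((m : ℝ) + 1)) (by positivity)
      refine ⟨d η, d_mem_XH hη, fun ξ hξ => (hη2 ξ ?_).le⟩
      exact Finset.mem_map_of_mem (Function.Embedding.subtype _) hξ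
  obtain ⟨y, hy⟩ := hne
  rw [mem_iInter] at hy
  refine ⟨y, (hy (∅, 0)).1, fun ξ hξ => ?_⟩
  by_contra hcon
  have hpos : 0 < |h ξ y - h ξ x| := abs_pos.2 (sub_ne_zero.2 hcon)
  obtain ⟨n, hn⟩ := exists_nat_one_div_lt hpos
  have := (hy ({⟨ξ, hξ⟩}, n)).2 ⟨ξ, hξ⟩ (Finset.mem_singleton_self _)
  simp only at this
  linarith

end Pool.Agent.Work.MP_e9bccb_gt
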