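import Pool.Agent.Work.MP_e9bccb_gt.Basic

/-! Helper file for MP_e9bccb_gt: good index sets, retractions and the gluing lemma. -/

open Cardinal Set Filter Topology

namespace Pool.Agent.Work.MP_e9bccb_gt

universe u

variable {X : Type u} [TopologicalSpace X]

/-- `K` carries a point-countable separating family of continuous functions -/
def CorsonOn (K : Set X) : Prop :=
  ∃ 𝒢 : Set (X → ℝ), (∀ g ∈ 𝒢, ContinuousOn g K) ∧ (∀ x ∈ K, {g ∈ 𝒢 | g x ≠ 0}.Countable) ∧
    ∀ x ∈ K, ∀ y ∈ K, (∀ g ∈ 𝒢, g x = g y) → x = y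

/-- the closed set generated by an index set -/
def XH {I : Type u} (d : I → X) (x₀ : X) (H : Set I) : Set X := closure (insert x₀ (d '' H))

/-- the standing data -/
structure Data (I : Type u) (d : I → X) (h : I → X → ℝ) (x₀ : X) (K : Set X) : Prop where
  cont : ∀ ξ, Continuous (h ξ)
  K_eq : K = closure (range d)
  x₀_mem : x₀ ∈ K
  sep : ∀ x ∈ K, ∀ y ∈ K, (∀ ξ, h ξ x = h ξ y) → x = y

/-- good index sets -/
structure Good {I : Type u} (d : I → X) (h : I → X → ℝ) (x₀ : X) (K : Set X) (H : Set I) :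
    Prop where
  sep : ∀ x ∈ XH d x₀ H, ∀ y ∈ XH d x₀ H, (∀ ξ ∈ H, h ξ x = h ξ y) → x = y
  lift : ∀ x ∈ K, ∃ y ∈ XH d x₀ H, ∀ ξ ∈ H, h ξ y = h ξ x

variable {I : Type u} {d : I → X} {h : I → X → ℝ} {x₀ : X} {K : Set X}

theorem XH_mono {H H' : Set I} (hH : H ⊆ H') : XH d x₀ H ⊆ XH d x₀ H' :=
  closure_mono (insert_subset_insert (image_mono hH))

theorem x₀_mem_XH {H : Set I} : x₀ ∈ XH d x₀ H := subset_closure (mem_insert _ _)

theorem d_mem_XH {H : Set I} {ξ : I} (hξ : ξ ∈ H) : d ξ ∈ XH d x₀ H :=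
  subset_closure (mem_insert_of_mem _ (mem_image_of_mem d hξ))

theorem isClosed_XH {H : Set I} : IsClosed (XH d x₀ H) := isClosed_closure

theorem Data.XH_subset (D : Data I d h x₀ K) (H : Set I) : XH d x₀ H ⊆ K := by
  refine closure_minimal ?_ (by rw [D.K_eq]; exact isClosed_closure)
  refine insert_subset D.x₀_mem ?_
  rw [D.K_eq]
  exact (image_subset_range d H).trans subset_closure

theorem Data.good_univ (D : Data I d h x₀ K) : Good d h x₀ K univ where
  sep x hx y hy hxy := D.sep x (D.XH_subset _ hx) y (D.XH_subset _ hy) (fun ξ => hxy ξ (mem_univ _))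
  lift x hx := by
    refine ⟨x, ?_, fun _ _ => rfl⟩
    rw [D.K_eq] at hx
    refine closure_mono ?_ hx
    rw [image_univ]
    exact subset_insert _ _

theorem good_empty [T2Space X] : Good d h x₀ K (∅ : Set I) where
  sep x hx y hy _ := by
    simp only [XH, image_empty, insert_empty_eq, closure_singleton, mem_singleton_iff] at hx hy
    rw [hx, hy]
  lift _ _ := ⟨x₀, x₀_mem_XH, fun ξ hξ => absurd hξ (by simp)⟩

/-- countable tightness -/
theorem exists_ctbl [CompactSpace X] [T2Space X] (hX : SplitAll X) {H : Set I} {x : X}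
    (hx : x ∈ XH d x₀ H) : ∃ c ⊆ H, c.Countable ∧ x ∈ XH d x₀ c := by
  obtain ⟨u, hu, hlim⟩ := exists_seq hX hx
  have : ∀ n, ∃ c ⊆ H, c.Countable ∧ u n ∈ insert x₀ (d '' c) := by
    intro n
    rcases hu n with h1 | ⟨ξ, hξ, h1⟩
    · exact ⟨∅, empty_subset _, countable_empty, by rw [h1]; exact mem_insert _ _⟩
    · refine ⟨{ξ}, singleton_subset_iff.2 hξ, countable_singleton _, ?_⟩
      rw [← h1, image_singleton]; right; rfl
  choose c hcH hcc hc using this
  refine ⟨⋃ n, c n, iUnion_subset hcH, countable_iUnion hcc, ?_⟩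
  refine mem_closure_of_tendsto hlim (Eventually.of_forall fun n => ?_)
  exact insert_subset_insert (image_mono (subset_iUnion c n)) (hc n)

/-- the retraction attached to a good index set -/
theorem Good.exists_retraction [CompactSpace X] [T2Space X] (D : Data I d h x₀ K) {H : Set I}
    (hH : Good d h x₀ K H) :
    ∃ r : X → X, (∀ x ∈ K, r x ∈ XH d x₀ H) ∧ (∀ x ∈ K, ∀ ξ ∈ H, h ξ (r x) = h ξ x) ∧
      ContinuousOn r K := by
  classical
  choose! r hr1 hr2 using hH.lift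
  refine ⟨r, hr1, hr2, ?_⟩
  intro x hx
  refine IsCompact.le_nhds_of_unique_clusterPt (s := XH d x₀ H) isClosed_XH.isCompact ?_ ?_
  · rw [mem_map]
    filter_upwards [self_mem_nhdsWithin] with y hy using hr1 y hy
  · intro y hy hcl
    refine hH.sep y hy (r x) (hr1 x hx) (fun ξ hξ => ?_)
    rw [hr2 x hx ξ hξ]
    have h1 : MapClusterPt (h ξ y) (𝓝[K] x) (h ξ ∘ r) :=
      MapClusterPt.continuousAt_comp (D.cont ξ).continuousAt hcl
    have h2 : Tendsto (h ξ ∘ r) (𝓝[K] x) (𝓝 (h ξ x)) := by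
      have : Tendsto (h ξ) (𝓝[K] x) (𝓝 (h ξ x)) := ((D.cont ξ).tendsto x).mono_left inf_le_left
      refine this.congr' ?_
      filter_upwards [self_mem_nhdsWithin] with z hz
      exact (hr2 z hz ξ hξ).symm
    exact eq_of_nhds_neBot (ClusterPt.mono h1 h2)

/-- the gluing lemma -/
theorem glue [CompactSpace X] [T2Space X] (hX : SplitAll X) (D : Data I d h x₀ K)
    {J : Type u} [LinearOrder J] [WellFoundedLT J] (H : J → Set I) (Hmono : Monotone H)
    (Hcov : ∀ ξ, ∃ j, ξ ∈ H j) (hgood : ∀ j, Good d h x₀ K (H j))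
    (hgoodL : ∀ j, Good d h x₀ K (⋃ i ∈ Iio j, H i))
    (hcor : ∀ j, CorsonOn (XH d x₀ (H j))) : CorsonOn K := by
  classical
  choose r hr1 hr2 hr3 using fun j => (hgood j).exists_retraction D
  choose s hs1 hs2 hs3 using fun j => (hgoodL j).exists_retraction D
  choose ℰ hℰ1 hℰ2 hℰ3 using hcor
  have Lsub : ∀ j, (⋃ i ∈ Iio j, H i) ⊆ H j := fun j =>
    iUnion₂_subset (fun i hi => Hmono (le_of_lt hi))
  let 𝒢 : Set (X → ℝ) := ⋃ j, (fun e : X → ℝ => fun x => e (r j x) - e (s j x)) '' ℰ j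
  -- the set of jumps is countable
  have jump : ∀ x ∈ K, {j | r j x ≠ s j x}.Countable := by
    intro x hx
    set N : Set J := {j | r j x ≠ s j x} with hN
    -- main claim
    have claim : ∀ S : Set J, (∀ j ∈ S, (N ∩ Iio j).Countable) →
        Good d h x₀ K (⋃ i ∈ S, H i) → (∀ j ∈ S, (⋃ i ∈ Iio j, H i) ⊆ (⋃ i ∈ S, H i)) →
        (N ∩ S).Countable := by
      intro S hS hgS hlow
      by_contra hunc
      obtain ⟨x', hx'1, hx'2⟩ := hgS.lift x hx
      obtain ⟨c, hcS, hcc, hx'c⟩ := exists_ctbl hX hx'1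
      have : ∀ ξ : I, ∃ j, ξ ∈ c → j ∈ S ∧ ξ ∈ H j := by
        intro ξ
        by_cases hξ : ξ ∈ c
        · obtain ⟨j, hj1, hj2⟩ := mem_iUnion₂.1 (hcS hξ)
          exact ⟨j, fun _ => ⟨hj1, hj2⟩⟩
        · exact ⟨(Hcov ξ).choose, fun h => absurd h hξ⟩
      choose jj hjj using this
      have hcount : (⋃ ξ ∈ c, (N ∩ Iic (jj ξ))).Countable := by
        refine hcc.biUnion (fun ξ hξ => ?_)
        refine ((hS (jj ξ) (hjj ξ hξ).1).union (countable_singleton (jj ξ))).mono ?_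
        rintro j ⟨hj1, hj2⟩
        rcases lt_or_eq_of_le hj2 with h | h
        · exact Or.inl ⟨hj1, h⟩
        · exact Or.inr h
      obtain ⟨b, hb1, hb2⟩ : ∃ b ∈ N ∩ S, b ∉ (⋃ ξ ∈ c, (N ∩ Iic (jj ξ))) := by
        by_contra hcon
        push Not at hcon
        exact hunc (hcount.mono hcon)
      have hlt : ∀ ξ ∈ c, jj ξ < b := by
        intro ξ hξ
        by_contra hle
        exact hb2 (mem_iUnion₂.2 ⟨ξ, hξ, hb1.1, not_lt.1 hle⟩)
      have hcb : c ⊆ ⋃ i ∈ Iio b, H i := by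
        intro ξ hξ
        exact mem_iUnion₂.2 ⟨jj ξ, hlt ξ hξ, (hjj ξ hξ).2⟩
      have hx'K : x' ∈ K := D.XH_subset _ hx'1
      have hx'L : x' ∈ XH d x₀ (⋃ i ∈ Iio b, H i) := XH_mono hcb hx'c
      have e1 : s b x = x' := by
        refine (hgoodL b).sep _ (hs1 b x hx) _ hx'L (fun ξ hξ => ?_)
        rw [hs2 b x hx ξ hξ, hx'2 ξ (hlow b hb1.2 hξ)]
      have hbS : H b ⊆ ⋃ i ∈ S, H i := fun ξ hξ => mem_iUnion₂.2 ⟨b, hb1.2, hξ⟩
      have e2 : r b x = x' := by
        refine (hgood b).sep _ (hr1 b x hx) _ (XH_mono (Lsub b) hx'L) (fun ξ hξ => ?_)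
        rw [hr2 b x hx ξ hξ, hx'2 ξ (hbS hξ)]
      exact hb1.1 (by rw [e1, e2])
    have step : ∀ j, (N ∩ Iio j).Countable := by
      intro j
      induction j using WellFoundedLT.induction with
      | ind j ih =>
        refine claim (Iio j) (fun i hi => ih i hi) (hgoodL j) (fun i hi => ?_)
        intro ξ hξ
        obtain ⟨k, hk, hξk⟩ := mem_iUnion₂.1 hξ
        exact mem_iUnion₂.2 ⟨k, lt_trans hk hi, hξk⟩
    have huniv : (⋃ i ∈ (Set.univ : Set J), H i) = Set.univ := by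
      ext ξ
      simp only [mem_iUnion, mem_univ, exists_prop, true_and]
      exact iff_of_true (Hcov ξ) trivial
    have := claim Set.univ (fun j _ => step j) (by rw [huniv]; exact D.good_univ)
      (fun j _ => by rw [huniv]; exact subset_univ _)
    rwa [inter_univ] at this
  refine ⟨𝒢, ?_, ?_, ?_⟩
  · intro g hg
    obtain ⟨j, e, he, rfl⟩ := mem_iUnion.1 hg
    refine ContinuousOn.sub ?_ ?_
    · exact (hℰ1 j e he).comp (hr3 j) (fun x hx => hr1 j x hx)
    · exact (hℰ1 j e he).comp (hs3 j) (fun x hx => XH_mono (Lsub j) (hs1 j x hx))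
  · intro x hx
    have hsub : {g ∈ 𝒢 | g x ≠ 0} ⊆ ⋃ j ∈ {j | r j x ≠ s j x},
        (fun e : X → ℝ => fun x => e (r j x) - e (s j x)) ''
          ({e ∈ ℰ j | e (r j x) ≠ 0} ∪ {e ∈ ℰ j | e (s j x) ≠ 0}) := by
      rintro g ⟨hg, hgx⟩
      obtain ⟨j, e, he, rfl⟩ := mem_iUnion.1 hg
      have hj : r j x ≠ s j x := by
        intro heq
        apply hgx
        simp [heq]
      refine mem_iUnion₂.2 ⟨j, hj, e, ?_, rfl⟩
      by_cases h1 : e (r j x) = 0
      · right
        refine ⟨he, fun h2 => hgx ?_⟩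
        simp [h1, h2]
      · left
        exact ⟨he, h1⟩
    refine Countable.mono hsub ((jump x hx).biUnion (fun j _ => ?_))
    refine Countable.image ?_ _
    exact (hℰ2 j _ (hr1 j x hx)).union (hℰ2 j _ (XH_mono (Lsub j) (hs1 j x hx)))
  · intro x hx y hy hxy
    have key : ∀ j, r j x = r j y := by
      intro j
      induction j using WellFoundedLT.induction with
      | ind j ih =>
        have hsj : s j x = s j y := by
          refine (hgoodL j).sep _ (hs1 j x hx) _ (hs1 j y hy) (fun ξ hξ => ?_)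
          rw [hs2 j x hx ξ hξ, hs2 j y hy ξ hξ]
          obtain ⟨i, hi, hξi⟩ := mem_iUnion₂.1 hξ
          rw [← hr2 i x hx ξ hξi, ← hr2 i y hy ξ hξi, ih i hi]
        refine hℰ3 j _ (hr1 j x hx) _ (hr1 j y hy) (fun e he => ?_)
        have := hxy _ (mem_iUnion.2 ⟨j, e, he, rfl⟩)
        simp only [hsj] at this
        linarith
    refine D.sep x hx y hy (fun ξ => ?_)
    obtain ⟨j, hj⟩ := Hcov ξ
    rw [← hr2 j x hx ξ hj, ← hr2 j y hy ξ hj, key j]

end Pool.Agent.Work.MP_e9bccb_gt
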