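import Pool.Agent.Work.MP_e9bccb_gt.Closing

/-! Helper file for MP_e9bccb_gt: the singular case. -/

open Cardinal Set Filter Topology

namespace Pool.Agent.Work.MP_e9bccb_gt

universe u

variable {X : Type u} [TopologicalSpace X]
variable {I : Type u} {d : I → X} {h : I → X → ℝ} {x₀ : X} {K : Set X}

/-- a separating set for `XH L` presented along the finite subsets of `L` -/
theorem Data.exists_Psi [CompactSpace X] [T2Space X] (hX : SplitAll X) (D : Data I d h x₀ K)
    (L : Set I) : ∃ Ψ : Finset I → Set I, (∀ F, (Ψ F).Countable) ∧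
      (∀ x ∈ XH d x₀ L, ∀ y ∈ XH d x₀ L,
        (∀ F : Finset I, ↑F ⊆ L → ∀ ξ ∈ Ψ F, h ξ x = h ξ y) → x = y) ∧
      ∀ F : Finset I, ∀ x ∈ K, ∀ ε > 0, ∃ η ∈ Ψ F, ∀ ξ ∈ F, |h ξ (d η) - h ξ x| < ε := by
  classical
  choose c hc1 hc2 using D.exists_dense
  rcases le_or_gt ℵ₀ #L with hinf | hfin
  · obtain ⟨V, hV1, hV2⟩ := D.exists_V hX hinf le_rfl
    obtain ⟨f⟩ := hV1
    refine ⟨fun F => c F ∪ ((↑) '' {η : V | (f η : I) ∈ F}), ?_, ?_, ?_⟩
    · intro F
      refine (hc1 F).union (Countable.image ?_ _)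
      refine (Finite.preimage (f := fun η : V => (f η : I)) ?_ (Finset.finite_toSet F)).countable
      intro a _ b _ hab
      exact f.injective (Subtype.ext hab)
    · intro x hx y hy hxy
      refine hV2 x hx y hy (fun ξ hξ => ?_)
      refine hxy {(f ⟨ξ, hξ⟩ : I)} (by simp) ξ (Or.inr ⟨⟨ξ, hξ⟩, by simp, rfl⟩)
    · intro F x hx ε hε
      obtain ⟨η, hη, h2⟩ := hc2 F x hx ε hε
      exact ⟨η, Or.inl hη, h2⟩
  · obtain ⟨V, hV1, hV2⟩ := D.exists_V hX (H := L) le_rfl hfin.le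
    refine ⟨fun F => c F ∪ V, ?_, ?_, ?_⟩
    · intro F
      exact (hc1 F).union (le_aleph0_iff_set_countable.1 hV1)
    · intro x hx y hy hxy
      exact hV2 x hx y hy (fun ξ hξ => hxy ∅ (by simp) ξ (Or.inr hξ))
    · intro F x hx ε hε
      obtain ⟨η, hη, h2⟩ := hc2 F x hx ε hε
      exact ⟨η, Or.inl hη, h2⟩

/-- the union of the earlier sets -/
def LL {J : Type u} [LinearOrder J] (H : J → Set I) (j : J) : Set I := ⋃ k ∈ Iio j, H k

/-- one closing-off step -/
def stepf {J : Type u} [LinearOrder J] (Ψ : Set I → Finset I → Set I) (H : J → Set I) (i : J) :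
    Set I :=
  H i ∪ ⋃ j : J, ⋃ F : Finset (H i),
    {ξ | ((F.map (Function.Embedding.subtype _) : Finset I) : Set I) ⊆ LL H j ∧
      ξ ∈ Ψ (LL H j) (F.map (Function.Embedding.subtype _))}

theorem subset_stepf {J : Type u} [LinearOrder J] (Ψ : Set I → Finset I → Set I)
    (H : J → Set I) (i : J) : H i ⊆ stepf Ψ H i := subset_union_left

theorem mem_stepf {J : Type u} [LinearOrder J] (Ψ : Set I → Finset I → Set I)
    (H : J → Set I) (i j : J) (F : Finset I) (hF : (F : Set I) ⊆ H i) (hF2 : (F : Set I) ⊆ LL H j)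
    {ξ : I} (hξ : ξ ∈ Ψ (LL H j) F) : ξ ∈ stepf Ψ H i := by
  classical
  have hmap : (F.subtype (· ∈ H i)).map (Function.Embedding.subtype _) = F := by
    ext x
    simp only [Finset.mem_map, Finset.mem_subtype, Function.Embedding.coe_subtype,
      Subtype.exists, exists_and_left, exists_prop, exists_eq_right_right]
    exact ⟨fun h => h.1, fun h => ⟨h, hF h⟩⟩
  refine Or.inr (mem_iUnion.2 ⟨j, mem_iUnion.2 ⟨F.subtype (· ∈ H i), ?_⟩⟩)
  rw [mem_ofPred_eq, hmap]
  exact ⟨hF2, hξ⟩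

theorem stepf_mono {J : Type u} [LinearOrder J] (Ψ : Set I → Finset I → Set I)
    {H : J → Set I} (hH : Monotone H) : Monotone (stepf Ψ H) := by
  intro i i' hii
  rintro ξ (hξ | hξ)
  · exact Or.inl (hH hii hξ)
  · obtain ⟨j, hj⟩ := mem_iUnion.1 hξ
    obtain ⟨F, hF1, hF2⟩ := mem_iUnion.1 hj
    refine mem_stepf Ψ H i' j _ ?_ hF1 hF2
    intro η hη
    simp only [Finset.coe_map, Function.Embedding.coe_subtype, mem_image, Finset.mem_coe] at hη
    obtain ⟨a, _, rfl⟩ := hη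
    exact hH hii a.2

theorem mk_stepf_le {J : Type u} [LinearOrder J] (Ψ : Set I → Finset I → Set I)
    (hΨ : ∀ L F, (Ψ L F).Countable) (H : J → Set I) (i : J) {l : Cardinal.{u}} (hl : ℵ₀ ≤ l)
    (hJ : #J ≤ l) (hH : #(H i) ≤ l) : #(stepf Ψ H i) ≤ l := by
  classical
  refine (mk_union_le _ _).trans ?_
  refine (add_le_add hH ?_).trans (add_eq_self hl).le
  refine (mk_iUnion_le_sum_mk).trans ?_
  refine (sum_le_mk_mul_iSup _).trans ?_
  refine (mul_le_mul' hJ (ciSup_le' fun j => ?_ : _ ≤ l)).trans (mul_eq_self hl).le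
  refine (mk_iUnion_le_sum_mk).trans ?_
  refine (sum_le_mk_mul_iSup _).trans ?_
  refine (mul_le_mul' ?_ (ciSup_le' fun F => ?_ : _ ≤ ℵ₀)).trans
    (mul_eq_left hl hl aleph0_ne_zero).le
  · rcases finite_or_infinite (H i) with hf | hi
    · exact (Cardinal.lt_aleph0_of_finite _).le.trans hl
    · rw [mk_finset_of_infinite]; exact hH
  · exact le_aleph0_iff_set_countable.2
      ((hΨ (LL H j) (F.map (Function.Embedding.subtype _))).mono (fun ξ hξ => hξ.2))

theorem singular_case [CompactSpace X] [T2Space X] (hX : SplitAll X) (D : Data I d h x₀ K)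
    [LinearOrder I] [WellFoundedLT I] {κ : Cardinal.{u}} (hI : #I = κ)
    (hκ : ℵ_ 1 < κ) (hIic : ∀ α : I, #(Iic α) < κ) (S : Set I) (hS : #S < κ)
    (hcof : ∀ ξ, ∃ s ∈ S, ξ ≤ s)
    (IH : ∀ H : Set I, #H < κ → CorsonOn (XH d x₀ H)) : CorsonOn K := by
  classical
  choose Ψ hΨ1 hΨ2 hΨ3 using D.exists_Psi hX
  let W : Type u := (ℵ_ 1 : Cardinal.{u}).ord.ToType
  have hW : #W = ℵ_ 1 := mk_ord_toType _
  -- countable subsets of W are bounded
  have hWb : ∀ c : Set W, c.Countable → ∃ w, ∀ v ∈ c, v < w := by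
    intro c hc
    by_contra hcon
    push Not at hcon
    have h1 : (Set.univ : Set W) ⊆ ⋃ v ∈ c, Iic v := by
      intro w _
      obtain ⟨v, hv, hwv⟩ := hcon w
      exact mem_iUnion₂.2 ⟨v, hv, hwv⟩
    have h2 : (⋃ v ∈ c, Iic v : Set W).Countable := by
      refine hc.biUnion (fun v _ => ?_)
      have : (Iio v).Countable := by
        rw [← le_aleph0_iff_set_countable, ← lt_aleph_one_iff]
        have h4 := Cardinal.mk_Iio_lt (α := W) v (by rw [hW]; exact (Ordinal.type_toType _).symm)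
        rwa [hW] at h4
      rw [← Iio_insert]
      exact this.insert v
    have h3 := h2.mono h1
    rw [← le_aleph0_iff_set_countable, mk_univ, hW] at h3
    exact absurd h3 (not_le.2 aleph0_lt_aleph_one)
  -- the size bounds
  let σ : S → Cardinal.{u} := fun i => max (max #(Iic (i : I)) #S) (ℵ_ 1)
  have hσ : ∀ i, σ i < κ := fun i => max_lt (max_lt (hIic i) hS) hκ
  have hσ1 : ∀ i, ℵ_ 1 ≤ σ i := fun i => le_max_right _ _
  have hσ0 : ∀ i, ℵ₀ ≤ σ i := fun i => aleph0_lt_aleph_one.le.trans (hσ1 i)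
  have hσS : ∀ i, #S ≤ σ i := fun i => (le_max_right _ _).trans (le_max_left _ _)
  -- the matrix
  let T : W → S → Set I := WellFounded.fix (C := fun _ => S → Set I) (wellFounded_lt (α := W))
    (fun w rec i => Iic (i : I) ∪ ⋃ v : W, ⋃ hv : v < w, stepf Ψ (rec v hv) i)
  have hT : ∀ (w : W) (i : S), T w i = Iic (i : I) ∪ ⋃ v : W, ⋃ _ : v < w, stepf Ψ (T v) i := by
    intro w i
    have : T w = fun i : S => Iic (i : I) ∪ ⋃ v : W, ⋃ _ : v < w, stepf Ψ (T v) i :=
      WellFounded.fix_eq _ _ w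
    rw [this]
  have hTstep : ∀ v w i, v < w → stepf Ψ (T v) i ⊆ T w i := by
    intro v w i hvw
    rw [hT w i]
    exact (subset_iUnion₂ (s := fun (v : W) (_ : v < w) => stepf Ψ (T v) i) v hvw).trans
      subset_union_right
  have hTw : ∀ v w i, v ≤ w → T v i ⊆ T w i := by
    intro v w i hvw
    rcases eq_or_lt_of_le hvw with h1 | h1
    · rw [h1]
    · exact (subset_stepf Ψ (T v) i).trans (hTstep v w i h1)
  have hTmono : ∀ w, Monotone (T w) := by
    intro w
    induction w using WellFoundedLT.induction with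
    | ind w ih =>
      intro i i' hii
      rw [hT w i, hT w i']
      refine union_subset_union (Iic_subset_Iic.2 hii) (iUnion₂_mono (fun v hv => ?_))
      exact stepf_mono Ψ (ih v hv) hii
  have hTcard : ∀ w i, #(T w i) ≤ σ i := by
    intro w i
    induction w using WellFoundedLT.induction with
    | ind w ih =>
      rw [hT w i]
      refine (mk_union_le _ _).trans ?_
      refine (add_le_add ((le_max_left _ _).trans (le_max_left _ _)) ?_).trans
        (add_eq_self (hσ0 i)).le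
      have hsub : (⋃ v : W, ⋃ _ : v < w, stepf Ψ (T v) i) ⊆
          ⋃ v : Iio w, stepf Ψ (T v) i := by
        refine iUnion₂_subset (fun v hv => ?_)
        exact subset_iUnion (fun v : Iio w => stepf Ψ (T v) i) ⟨v, hv⟩
      refine (mk_le_mk_of_subset hsub).trans ?_
      refine (mk_iUnion_le_sum_mk).trans ?_
      refine (sum_le_mk_mul_iSup _).trans ?_
      refine (mul_le_mul' ?_ (ciSup_le' fun v => ?_ : _ ≤ σ i)).trans (mul_eq_self (hσ0 i)).le
      · exact ((mk_set_le _).trans_eq hW).trans (hσ1 i)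
      · exact mk_stepf_le Ψ hΨ1 (T v) i (hσ0 i) (hσS i) (ih v v.2)
  -- the final chain
  let H : S → Set I := fun i => ⋃ w, T w i
  have hHmono : Monotone H := fun i i' hii => iUnion_mono (fun w => hTmono w hii)
  have hHcard : ∀ i, #(H i) < κ := by
    intro i
    refine lt_of_le_of_lt ?_ (hσ i)
    refine (mk_iUnion_le_sum_mk).trans ?_
    refine (sum_le_mk_mul_iSup _).trans ?_
    refine (mul_le_mul' ?_ (ciSup_le' fun v => hTcard v i : _ ≤ σ i)).trans (mul_eq_self (hσ0 i)).le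
    exact hW.le.trans (hσ1 i)
  have hIicH : ∀ i : S, Iic (i : I) ⊆ H i := by
    intro i
    obtain ⟨w, _⟩ := hWb ∅ countable_empty
    refine Subset.trans ?_ (subset_iUnion (fun w => T w i) w)
    rw [hT w i]
    exact subset_union_left
  have hHcov : ∀ ξ, ∃ j, ξ ∈ H j := by
    intro ξ
    obtain ⟨s, hs, hξs⟩ := hcof ξ
    exact ⟨⟨s, hs⟩, hIicH ⟨s, hs⟩ hξs⟩
  -- members of a lower cut appear early
  have hLL : ∀ j : S, ∀ ξ ∈ LL H j, ∃ w, ξ ∈ LL (T w) j := by
    intro j ξ hξ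
    obtain ⟨i, hi, hξi⟩ := mem_iUnion₂.1 hξ
    obtain ⟨w, hw⟩ := mem_iUnion.1 hξi
    exact ⟨w, mem_iUnion₂.2 ⟨i, hi, hw⟩⟩
  have hLLmono : ∀ v w, v ≤ w → ∀ j, LL (T v) j ⊆ LL (T w) j := by
    intro v w hvw j
    exact iUnion₂_mono (fun i _ => hTw v w i hvw)
  have hLLsub : ∀ w j, LL (T w) j ⊆ LL H j := by
    intro w j
    exact iUnion₂_mono (fun i _ => subset_iUnion (fun w => T w i) w)
  have hcount : ∀ j : S, ∀ c ⊆ LL H j, c.Countable → ∃ w, c ⊆ LL (T w) j := by
    intro j c hc hcc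
    have : ∀ ξ : I, ∃ w : W, ξ ∈ c → ξ ∈ LL (T w) j := by
      intro ξ
      by_cases hξ : ξ ∈ c
      · obtain ⟨w, hw⟩ := hLL j ξ (hc hξ)
        exact ⟨w, fun _ => hw⟩
      · obtain ⟨w, _⟩ := hWb ∅ countable_empty
        exact ⟨w, fun h => absurd h hξ⟩
    choose f hf using this
    obtain ⟨w, hw⟩ := hWb (f '' c) (hcc.image f)
    exact ⟨w, fun ξ hξ => hLLmono _ _ (hw _ (mem_image_of_mem f hξ)).le j (hf ξ hξ)⟩
  -- the new elements stay in the cut
  have hnew : ∀ j : S, (LL H j).Nonempty → ∀ w, ∀ F : Finset I, (F : Set I) ⊆ LL (T w) j →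
      Ψ (LL (T w) j) F ⊆ LL H j := by
    rintro j ⟨ξ₀, hξ₀⟩ w F hF ξ hξ
    obtain ⟨i₀, hi₀, _⟩ := mem_iUnion₂.1 hξ₀
    obtain ⟨i, hi, hFi⟩ : ∃ i ∈ Iio j, (F : Set I) ⊆ T w i := by
      refine DirectedOn.exists_mem_subset_of_finset_subset_biUnion ⟨i₀, hi₀⟩ ?_ hF
      exact fun a ha b hb => ⟨max a b, max_lt ha hb, hTmono w (le_max_left a b),
        hTmono w (le_max_right a b)⟩
    obtain ⟨w', hw'⟩ := hWb {w} (countable_singleton w)
    have h1 : ξ ∈ stepf Ψ (T w) i := mem_stepf Ψ (T w) i j F hFi hF hξ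
    have h2 : ξ ∈ T w' i := hTstep w w' i (hw' w rfl) h1
    exact mem_iUnion₂.2 ⟨i, hi, mem_iUnion.2 ⟨w', h2⟩⟩
  have hgoodLL : ∀ j, Good d h x₀ K (LL H j) := by
    intro j
    rcases (LL H j).eq_empty_or_nonempty with hemp | hne
    · rw [hemp]; exact good_empty
    · constructor
      · intro x hx y hy hxy
        obtain ⟨c, hc1, hc2, hc3⟩ := exists_ctbl hX hx
        obtain ⟨c', hc'1, hc'2, hc'3⟩ := exists_ctbl hX hy
        obtain ⟨w, hw⟩ := hcount j (c ∪ c') (union_subset hc1 hc'1) (hc2.union hc'2)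
        refine hΨ2 (LL (T w) j) x (XH_mono (subset_union_left.trans hw) hc3) y
          (XH_mono (subset_union_right.trans hw) hc'3) (fun F hF ξ hξ => ?_)
        exact hxy ξ (hnew j hne w F hF hξ)
      · refine D.lift_of_dense (fun F hF x hx ε hε => ?_)
        obtain ⟨w, hw⟩ := hcount j (F : Set I) hF F.countable_toSet
        obtain ⟨η, hη, h2⟩ := hΨ3 (LL (T w) j) F x hx ε hε
        exact ⟨η, hnew j hne w F hw hη, h2⟩
  -- no last element
  have hnext : ∀ j : S, ∃ k : S, LL H k = H j := by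
    intro j
    have hex : ∃ ξ : I, ¬ ξ ≤ j := by
      by_contra hcon
      push Not at hcon
      have : Iic (j : I) = Set.univ := eq_univ_of_forall hcon
      have h1 := hIic j
      rw [this, mk_univ, hI] at h1
      exact lt_irrefl _ h1
    obtain ⟨ξ, hξ⟩ := hex
    obtain ⟨s, hs, hξs⟩ := hcof ξ
    have hne : (Ioi j).Nonempty := ⟨⟨s, hs⟩, lt_of_lt_of_le (not_le.1 hξ) hξs⟩
    let k := wellFounded_lt.min (Ioi j) hne
    have hk : j < k := wellFounded_lt.min_mem (Ioi j) hne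
    refine ⟨k, Subset.antisymm ?_ ?_⟩
    · refine iUnion₂_subset (fun i hi => hHmono ?_)
      by_contra hlt
      exact wellFounded_lt.not_lt_min (Ioi j) (not_le.1 hlt) hi
    · exact subset_iUnion₂ (s := fun i (_ : i ∈ Iio k) => H i) j hk
  refine glue hX D H hHmono hHcov ?_ hgoodLL (fun j => IH _ (hHcard j))
  intro j
  obtain ⟨k, hk⟩ := hnext j
  rw [← hk]
  exact hgoodLL k

end Pool.Agent.Work.MP_e9bccb_gt
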