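import Pool.Agent.Work.MP_e9bccb_gt.Regular
import Pool.Agent.Work.MP_e9bccb_gt.Singular

/-! Helper file for MP_e9bccb_gt: the induction on the size of a dense set. -/

open Cardinal Set Filter Topology

namespace Pool.Agent.Work.MP_e9bccb_gt

universe u

variable {X : Type u} [TopologicalSpace X]

theorem corsonOn_closure [CompactSpace X] [T2Space X] (hX : SplitAll X) (C : Set X) :
    CorsonOn (closure C) := by
  classical
  obtain ⟨κ, hκ⟩ : ∃ κ : Cardinal.{u}, κ = #C := ⟨_, rfl⟩
  induction κ using WellFoundedLT.induction generalizing C with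
  | ind κ ih =>
    rcases le_or_gt κ ℵ₀ with hle | hlt
    · -- the countable case
      obtain ⟨𝒰, h1, h2, h3⟩ := exists_sep hX le_rfl (hκ ▸ hle)
      refine ⟨𝒰, fun g hg => (h2 g hg).continuousOn, fun x _ => ?_, h3⟩
      exact (le_aleph0_iff_set_countable.1 h1).mono (fun g hg => hg.1)
    · -- the uncountable case
      have hI : #κ.ord.ToType = κ := mk_ord_toType κ
      have hIio : ∀ α : κ.ord.ToType, #(Iio α) < κ := by
        intro α
        have := Cardinal.mk_Iio_lt (α := κ.ord.ToType) α (by rw [hI, Ordinal.type_toType])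
        rwa [hI] at this
      obtain ⟨e⟩ : Nonempty (κ.ord.ToType ≃ C) := Cardinal.eq.1 (by rw [hI, hκ])
      obtain ⟨𝒰, h1, h2, h3⟩ := exists_sep hX hlt.le hκ.symm.le
      obtain ⟨f⟩ : Nonempty (𝒰 ↪ κ.ord.ToType) := by
        rw [← Cardinal.le_def, hI]; exact h1
      let d : κ.ord.ToType → X := fun ξ => e ξ
      have hd : range d = C := by
        have : d = Subtype.val ∘ e := rfl
        rw [this, e.surjective.range_comp, Subtype.range_coe]
      let h : κ.ord.ToType → X → ℝ := Function.extend f Subtype.val (fun _ _ => 0)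
      have hfu : ∀ u : 𝒰, h (f u) = u := fun u => f.injective.extend_apply _ _ u
      have hcont : ∀ ξ, Continuous (h ξ) := by
        intro ξ
        by_cases hξ : ∃ u, f u = ξ
        · obtain ⟨u, rfl⟩ := hξ
          rw [hfu u]; exact h2 u u.2
        · have : h ξ = fun _ => 0 := Function.extend_apply' _ _ _ hξ
          rw [this]; exact continuous_const
      have hCne : C.Nonempty := by
        by_contra hcon
        rw [not_nonempty_iff_eq_empty] at hcon
        have h0 : κ = 0 := by rw [hκ, hcon]; exact Cardinal.mk_eq_zero _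
        rw [h0] at hlt
        exact absurd hlt (not_lt.2 zero_le)
      obtain ⟨x₀, hx₀⟩ := hCne
      have D : Data κ.ord.ToType d h x₀ (closure C) := by
        refine ⟨hcont, by rw [hd], subset_closure hx₀, fun x hx y hy hxy => ?_⟩
        refine h3 x hx y hy (fun u hu => ?_)
        have := hxy (f ⟨u, hu⟩)
        rwa [hfu ⟨u, hu⟩] at this
      have IH : ∀ H : Set κ.ord.ToType, #H < κ → CorsonOn (XH d x₀ H) := by
        intro H hH
        refine ih _ ?_ _ rfl
        refine lt_of_le_of_lt (mk_insert_le.trans (add_le_add_left mk_image_le _)) ?_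
        exact add_lt_of_lt hlt.le hH (one_lt_aleph0.trans hlt)
      by_cases hreg : κ.IsRegular
      · exact regular_case hX D hI hreg hlt hIio IH
      · have hcof : κ.ord.cof < κ := by
          by_contra hcon
          exact hreg ⟨hlt.le, not_lt.1 hcon⟩
        obtain ⟨S, hS1, hS2⟩ := Order.exists_cof_eq κ.ord.ToType
        rw [Ordinal.cof_toType] at hS2
        have hκ1 : ℵ_ 1 < κ := by
          refine lt_of_le_of_ne ?_ ?_
          · rw [← succ_aleph0]; exact Order.succ_le_of_lt hlt
          · rintro rfl
            exact hreg isRegular_aleph_one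
        refine singular_case hX D hI hκ1 (fun α => ?_) S (by rw [hS2]; exact hcof) hS1 IH
        rw [← Iio_insert]
        refine lt_of_le_of_lt mk_insert_le ?_
        exact add_lt_of_lt hlt.le (hIio α) (one_lt_aleph0.trans hlt)

end Pool.Agent.Work.MP_e9bccb_gt
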