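import Pool.Agent.Work.MP_e9bccb_gt.Closing

/-! Helper file for MP_e9bccb_gt: the regular case. -/

open Cardinal Set Filter Topology

namespace Pool.Agent.Work.MP_e9bccb_gt

universe u

variable {X : Type u} [TopologicalSpace X]
variable {I : Type u} {d : I → X} {h : I → X → ℝ} {x₀ : X} {K : Set X}

/-- a bad pair at level `α` -/
def BadPair [LinearOrder I] (d : I → X) (h : I → X → ℝ) (x₀ : X) (α : I) (p q : X) : Prop :=
  p ∈ XH d x₀ (Iio α) ∧ q ∈ XH d x₀ (Iio α) ∧ p ≠ q ∧ (∀ ξ < α, h ξ p = h ξ q) ∧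
    ∀ β < α, q ∉ XH d x₀ (Iio β)

/-- one set splits all bad pairs -/
theorem exists_split [LinearOrder I] [WellFoundedLT I] (B : I → Prop) (p q : I → X)
    (hB : ∀ α, B α → BadPair d h x₀ α (p α) (q α)) :
    ∃ A : Set X, ∀ α, B α → (q α ∈ A ↔ p α ∉ A) := by
  classical
  let c : I → Prop := WellFounded.fix (C := fun _ => Prop) (wellFounded_lt (α := I))
    (fun α rec => ¬ ∃ β, ∃ hβ : β < α, B β ∧ p α = q β ∧ rec β hβ)
  have hc : ∀ α, c α ↔ ¬ ∃ β, β < α ∧ B β ∧ p α = q β ∧ c β := by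
    intro α
    have : c α = (¬ ∃ β, ∃ hβ : β < α, B β ∧ p α = q β ∧ c β) :=
      WellFounded.fix_eq _ _ α
    rw [this]
    simp only [exists_prop]
  -- a `q β` belongs to level exactly `β`
  have key : ∀ α β, B β → q β ∈ XH d x₀ (Iio α) → β ≤ α := by
    intro α β hβ hq
    by_contra hlt
    exact (hB β hβ).2.2.2.2 α (not_le.1 hlt) hq
  refine ⟨{x | ∃ α, B α ∧ x = q α ∧ c α}, fun α hα => ?_⟩
  have h1 : q α ∈ {x | ∃ α, B α ∧ x = q α ∧ c α} ↔ c α := by
    constructor
    · rintro ⟨β, hβ, hqβ, hcβ⟩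
      have hle1 : β ≤ α := key α β hβ (hqβ ▸ (hB α hα).2.1)
      have hle2 : α ≤ β := key β α hα (hqβ ▸ (hB β hβ).2.1)
      rwa [le_antisymm hle1 hle2] at hcβ
    · intro hcα
      exact ⟨α, hα, rfl, hcα⟩
  have h2 : p α ∈ {x | ∃ α, B α ∧ x = q α ∧ c α} ↔ ¬ c α := by
    rw [hc α, not_not]
    constructor
    · rintro ⟨β, hβ, hpβ, hcβ⟩
      have hle : β ≤ α := key α β hβ (hpβ ▸ (hB α hα).1)
      have hne : β ≠ α := by
        rintro rfl
        exact (hB β hβ).2.2.1 hpβ
      exact ⟨β, lt_of_le_of_ne hle hne, hβ, hpβ, hcβ⟩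
    · rintro ⟨β, _, hβ, hpβ, hcβ⟩
      exact ⟨β, hβ, hpβ, hcβ⟩
  rw [h1, h2, not_not]

theorem regular_case [CompactSpace X] [T2Space X] (hX : SplitAll X) (D : Data I d h x₀ K)
    [LinearOrder I] [WellFoundedLT I] {κ : Cardinal.{u}} (hI : #I = κ) (hreg : κ.IsRegular)
    (hunc : ℵ₀ < κ) (hIio : ∀ α : I, #(Iio α) < κ)
    (IH : ∀ H : Set I, #H < κ → CorsonOn (XH d x₀ H)) : CorsonOn K := by
  classical
  -- the bad pairs and the splitting set
  let B : I → Prop := fun α => ∃ p q, BadPair d h x₀ α p q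
  have hex : ∀ α, ∃ pq : X × X, B α → BadPair d h x₀ α pq.1 pq.2 := by
    intro α
    by_cases hα : B α
    · obtain ⟨p, q, hpq⟩ := hα
      exact ⟨(p, q), fun _ => hpq⟩
    · exact ⟨(x₀, x₀), fun h => absurd h hα⟩
  choose pq hpq using hex
  obtain ⟨A, hA⟩ := exists_split B (fun α => (pq α).1) (fun α => (pq α).2) hpq
  obtain ⟨𝒢, hPC, hsplit⟩ := hX A
  have hsplit' : ∀ α, B α → ∃ g ∈ 𝒢, g (pq α).1 ≠ g (pq α).2 := by
    intro α hα
    by_cases hq : (pq α).2 ∈ A
    · obtain ⟨g, hg, hne⟩ := hsplit _ hq _ ((hA α hα).1 hq)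
      exact ⟨g, hg, hne.symm⟩
    · have hp : (pq α).1 ∈ A := by
        by_contra hp
        exact hq ((hA α hα).2 hp)
      exact hsplit _ hp _ hq
  -- dependence
  have hdep : ∀ g : X → ℝ, ∃ s : Set I, g ∈ 𝒢 → s.Countable ∧
      ∀ x ∈ K, ∀ y ∈ K, (∀ ξ ∈ s, h ξ x = h ξ y) → g x = g y := by
    intro g
    by_cases hg : g ∈ 𝒢
    · obtain ⟨s, hs⟩ := D.exists_dep (hPC.cont g hg)
      exact ⟨s, fun _ => hs⟩
    · exact ⟨∅, fun h => absurd h hg⟩
  choose s hs using hdep
  let supp : X → Set I := fun x => ⋃ g ∈ {g ∈ 𝒢 | g x ≠ 0}, s g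
  have hsupp : ∀ x, (supp x).Countable := fun x =>
    (hPC.ctbl x).biUnion (fun g hg => (hs g hg.1).1)
  -- separating sets for initial segments
  have hV : ∀ α : I, ∃ V : Set I, #V < κ ∧
      ∀ x ∈ XH d x₀ (Iio α), ∀ y ∈ XH d x₀ (Iio α), (∀ ξ ∈ V, h ξ x = h ξ y) → x = y := by
    intro α
    obtain ⟨V, hV1, hV2⟩ := D.exists_V hX (H := Iio α) (l := max #(Iio α) ℵ₀)
      (le_max_right _ _) (le_max_left _ _)
    exact ⟨V, lt_of_le_of_lt hV1 (max_lt (hIio α) hunc), hV2⟩
  choose V hV1 hV2 using hV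
  choose c hc1 hc2 using D.exists_dense
  let Φ : Finset I → Set I := fun F =>
    supp x₀ ∪ (c F ∪ ⋃ α ∈ F, (Iio α ∪ (V α ∪ supp (d α))))
  have hctbl : ∀ t : Set I, t.Countable → #t < κ := fun t ht =>
    lt_of_le_of_lt (le_aleph0_iff_set_countable.2 ht) hunc
  have hunion : ∀ s t : Set I, #s < κ → #t < κ → #(s ∪ t : Set I) < κ := fun s t h1 h2 =>
    lt_of_le_of_lt (mk_union_le _ _) (add_lt_of_lt hreg.aleph0_le h1 h2)
  have hΦ : ∀ F, #(Φ F) < κ := by
    intro F
    refine hunion _ _ (hctbl _ (hsupp _)) (hunion _ _ (hctbl _ (hc1 F)) ?_)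
    induction F using Finset.induction_on with
    | empty => 
      refine hctbl _ ?_
      simp
    | insert a F ha ih =>
      rw [Finset.set_biUnion_insert]
      exact hunion _ _ (hunion _ _ (hIio a) (hunion _ _ (hV1 a) (hctbl _ (hsupp _)))) ih
  -- closed proper sets are good
  have hclosed_good : ∀ H : Set I, (∀ F : Finset I, ↑F ⊆ H → Φ F ⊆ H) → #H < κ →
      Good d h x₀ K H := by
    intro H hH hcard
    have hne : (Hᶜ).Nonempty := by
      by_contra hcon
      rw [not_nonempty_iff_eq_empty, compl_empty_iff] at hcon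
      rw [hcon, mk_univ, hI] at hcard
      exact lt_irrefl _ hcard
    have hlow : ∀ ξ ∈ H, Iio ξ ⊆ H := by
      intro ξ hξ
      refine Subset.trans ?_ (hH {ξ} (by simpa using hξ))
      intro η hη
      simp only [Φ, Finset.mem_singleton, iUnion_iUnion_eq_left]
      exact Or.inr (Or.inr (Or.inl hη))
    have hVH : ∀ ξ ∈ H, V ξ ⊆ H := by
      intro ξ hξ
      refine Subset.trans ?_ (hH {ξ} (by simpa using hξ))
      intro η hη
      simp only [Φ, Finset.mem_singleton, iUnion_iUnion_eq_left]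
      exact Or.inr (Or.inr (Or.inr (Or.inl hη)))
    have hsH : ∀ ξ ∈ H, supp (d ξ) ⊆ H := by
      intro ξ hξ
      refine Subset.trans ?_ (hH {ξ} (by simpa using hξ))
      intro η hη
      simp only [Φ, Finset.mem_singleton, iUnion_iUnion_eq_left]
      exact Or.inr (Or.inr (Or.inr (Or.inr hη)))
    have hs0 : supp x₀ ⊆ H := subset_union_left.trans (hH ∅ (by simp))
    set α := wellFounded_lt.min Hᶜ hne with hα
    have hαH : α ∉ H := wellFounded_lt.min_mem Hᶜ hne
    have hHα : H = Iio α := by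
      ext ξ
      constructor
      · intro hξ
        by_contra hle
        rw [mem_Iio, not_lt] at hle
        rcases eq_or_lt_of_le hle with h1 | h1
        · exact hαH (h1 ▸ hξ)
        · exact hαH (hlow ξ hξ h1)
      · intro hξ
        by_contra hξH
        exact wellFounded_lt.not_lt_min Hᶜ hξH hξ
    constructor
    · intro x hx y hy hxy
      by_contra hxne
      -- one of x, y is not in an earlier level
      have hB : B α := by
        rw [hHα] at hx hy
        have hnot : ¬ ((∃ β < α, x ∈ XH d x₀ (Iio β)) ∧ (∃ β < α, y ∈ XH d x₀ (Iio β))) := by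
          rintro ⟨⟨β, hβ, hxβ⟩, ⟨β', hβ', hyβ'⟩⟩
          have hm : max β β' < α := max_lt hβ hβ'
          have hmH : max β β' ∈ H := by rw [hHα]; exact hm
          refine hxne (hV2 (max β β') x (XH_mono (Iio_subset_Iio (le_max_left _ _)) hxβ)
            y (XH_mono (Iio_subset_Iio (le_max_right _ _)) hyβ') (fun ξ hξ => ?_))
          exact hxy ξ (hVH _ hmH hξ)
        by_cases hyc : ∃ β < α, y ∈ XH d x₀ (Iio β)
        · have hxc : ¬ ∃ β < α, x ∈ XH d x₀ (Iio β) := fun hxc => hnot ⟨hxc, hyc⟩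
          push Not at hxc
          exact ⟨y, x, hy, hx, Ne.symm hxne, fun ξ hξ => (hxy ξ (by rw [hHα]; exact hξ)).symm, hxc⟩
        · push Not at hyc
          exact ⟨x, y, hx, hy, hxne, fun ξ hξ => hxy ξ (by rw [hHα]; exact hξ), hyc⟩
      obtain ⟨hp, hq, hpqne, hpqeq, _⟩ := hpq α hB
      obtain ⟨g, hg, hgne⟩ := hsplit' α hB
      have hsg : s g ⊆ H := by
        by_cases h0 : g x₀ = 0
        · by_cases h1 : ∀ ξ ∈ H, g (d ξ) = 0
          · exfalso
            have h2 : XH d x₀ H ⊆ {z | g z = 0} := by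
              refine closure_minimal ?_ (isClosed_eq (hPC.cont g hg) continuous_const)
              rintro z (rfl | ⟨ξ, hξ, rfl⟩)
              · exact h0
              · exact h1 ξ hξ
            rw [← hHα] at hp hq
            have e1 : g (pq α).1 = 0 := h2 hp
            have e2 : g (pq α).2 = 0 := h2 hq
            exact hgne (by rw [e1, e2])
          · push Not at h1
            obtain ⟨ξ, hξ, hξne⟩ := h1
            refine Subset.trans ?_ (hsH ξ hξ)
            exact subset_biUnion_of_mem (u := s) (show g ∈ {g ∈ 𝒢 | g (d ξ) ≠ 0} from ⟨hg, hξne⟩)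
        · refine Subset.trans ?_ hs0
          exact subset_biUnion_of_mem (u := s) (show g ∈ {g ∈ 𝒢 | g x₀ ≠ 0} from ⟨hg, h0⟩)
      refine hgne ((hs g hg).2 _ (D.XH_subset _ hp) _ (D.XH_subset _ hq) (fun ξ hξ => ?_))
      refine hpqeq ξ ?_
      have := hsg hξ
      rwa [hHα] at this
    · refine D.lift_of_dense (fun F hF x hx ε hε => ?_)
      obtain ⟨η, hη, hη2⟩ := hc2 F x hx ε hε
      exact ⟨η, hH F hF (Or.inr (Or.inl hη)), hη2⟩
  -- the closed sets generated by points
  let M : I → Set I := fun j => ⋂₀ {H : Set I | j ∈ H ∧ ∀ F : Finset I, ↑F ⊆ H → Φ F ⊆ H}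
  have hMj : ∀ j, j ∈ M j := fun j => mem_sInter.2 (fun H hH => hH.1)
  have hMcl : ∀ j, ∀ F : Finset I, ↑F ⊆ M j → Φ F ⊆ M j := by
    intro j F hF
    refine subset_sInter (fun H hH => ?_)
    exact hH.2 F (hF.trans (sInter_subset_of_mem hH))
  have hMcard : ∀ j, #(M j) < κ := by
    intro j
    obtain ⟨H, h1, h2, h3⟩ := exists_closed hreg hunc Φ hΦ {j} (by
      rw [mk_singleton]; exact one_lt_aleph0.trans hunc)
    refine lt_of_le_of_lt (mk_le_mk_of_subset ?_) h2
    exact sInter_subset_of_mem ⟨h1 rfl, h3⟩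
  have hMmono : Monotone M := by
    intro i j hij
    refine sInter_subset_of_mem ⟨?_, hMcl j⟩
    rcases eq_or_lt_of_le hij with h1 | h1
    · rw [h1]; exact hMj j
    · have := hMcl j {j} (by simpa using hMj j)
      refine this ?_
      simp only [Φ, Finset.mem_singleton, iUnion_iUnion_eq_left]
      exact Or.inr (Or.inr (Or.inl h1))
  refine glue hX D M hMmono (fun ξ => ⟨ξ, hMj ξ⟩) (fun j => hclosed_good _ (hMcl j) (hMcard j))
    (fun j => ?_) (fun j => IH _ (hMcard j))
  -- the unions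
  rcases (Iio j).eq_empty_or_nonempty with hj | hj
  · rw [hj]
    simp only [mem_empty_iff_false, iUnion_of_empty, iUnion_empty]
    exact good_empty
  · refine hclosed_good _ ?_ ?_
    · intro F hF
      obtain ⟨i, hi, hFi⟩ : ∃ i ∈ Iio j, (F : Set I) ⊆ M i := by
        refine DirectedOn.exists_mem_subset_of_finset_subset_biUnion hj ?_ hF
        exact fun a ha b hb => ⟨max a b, max_lt ha hb, hMmono (le_max_left a b),
          hMmono (le_max_right a b)⟩
      exact (hMcl i F hFi).trans (subset_biUnion_of_mem (u := M) hi)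
    · refine lt_of_le_of_lt (mk_le_mk_of_subset ?_) (hMcard j)
      exact iUnion₂_subset (fun i hi => hMmono (le_of_lt hi))

end Pool.Agent.Work.MP_e9bccb_gt
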